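import Pool.Agent.E8helper39.WW.Stm

/-! The determinant form of `G(x) H(y) - G(y) H(x)`. -/

set_option autoImplicit false

open MvPolynomial WW39

namespace Pool.Agent.E8helper51.WW

/-- a finite sum of products `A(x) B(y) det (x, y, c)` -/
def Rep (n : ℕ) (f : (Fin 3 → ℝ) → (Fin 3 → ℝ) → ℝ) : Prop :=
  ∃ (ι : Type) (_ : Fintype ι) (A B : ι → Pol) (c : ι → Fin 3 → ℝ),
    (∀ k, (A k).IsHomogeneous n) ∧ (∀ k, (B k).IsHomogeneous n) ∧
    ∀ x y, f x y = ∑ k, MvPolynomial.eval x (A k) * MvPolynomial.eval y (B k) * det3 x y (c k)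

theorem rep_zero (n : ℕ) : Rep n (fun _ _ => 0) :=
  ⟨Fin 0, inferInstance, fun _ => 0, fun _ => 0, fun _ _ => 0, fun k => k.elim0, fun k => k.elim0,
    fun x y => by simp⟩

theorem rep_add {n : ℕ} {f g : (Fin 3 → ℝ) → (Fin 3 → ℝ) → ℝ} (hf : Rep n f) (hg : Rep n g) :
    Rep n (fun x y => f x y + g x y) := by
  obtain ⟨ι, i1, A, B, c, hA, hB, h⟩ := hf
  obtain ⟨κ, i2, A', B', c', hA', hB', h'⟩ := hg
  refine ⟨ι ⊕ κ, inferInstance, Sum.elim A A', Sum.elim B B', Sum.elim c c', ?_, ?_, ?_⟩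
  · rintro (k | k)
    · exact hA k
    · exact hA' k
  · rintro (k | k)
    · exact hB k
    · exact hB' k
  · intro x y
    show f x y + g x y = _
    rw [Fintype.sum_sum_type, h, h']
    rfl

theorem rep_sum {n : ℕ} {κ : Type} (s : Finset κ) (f : κ → (Fin 3 → ℝ) → (Fin 3 → ℝ) → ℝ)
    (h : ∀ k ∈ s, Rep n (f k)) : Rep n (fun x y => ∑ k ∈ s, f k x y) := by
  classical
  induction s using Finset.induction_on with
  | empty => simpa using rep_zero n
  | insert a s ha ih =>
    have h1 := rep_add (h a (Finset.mem_insert_self a s))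
      (ih fun k hk => h k (Finset.mem_insert_of_mem hk))
    simpa only [Finset.sum_insert ha] using h1

theorem rep_mul {n : ℕ} {f : (Fin 3 → ℝ) → (Fin 3 → ℝ) → ℝ} (hf : Rep n f) (i j : Fin 3) :
    Rep (n + 1) (fun x y => x j * y i * f x y) := by
  obtain ⟨ι, i1, A, B, c, hA, hB, h⟩ := hf
  refine ⟨ι, i1, fun k => X j * A k, fun k => X i * B k, c, fun k => ?_, fun k => ?_, ?_⟩
  · have := (isHomogeneous_X ℝ j).mul (hA k)
    rwa [add_comm 1 n] at this
  · have := (isHomogeneous_X ℝ i).mul (hB k)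
    rwa [add_comm 1 n] at this
  · intro x y
    show x j * y i * f x y = _
    rw [h, Finset.mul_sum]
    refine Finset.sum_congr rfl fun k _ => ?_
    simp only [map_mul, eval_X]
    ring

theorem exists_c (i j : Fin 3) : ∃ c : Fin 3 → ℝ, ∀ x y : Fin 3 → ℝ,
    det3 x y c = x i * y j - x j * y i := by
  fin_cases i <;> fin_cases j
  · exact ⟨![0, 0, 0], fun x y => by simp [det3]; try ring⟩
  · exact ⟨![0, 0, 1], fun x y => by simp [det3]; try ring⟩
  · exact ⟨![0, -1, 0], fun x y => by simp [det3]; try ring⟩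
  · exact ⟨![0, 0, -1], fun x y => by simp [det3]; try ring⟩
  · exact ⟨![0, 0, 0], fun x y => by simp [det3]; try ring⟩
  · exact ⟨![1, 0, 0], fun x y => by simp [det3]; try ring⟩
  · exact ⟨![0, 1, 0], fun x y => by simp [det3]; try ring⟩
  · exact ⟨![-1, 0, 0], fun x y => by simp [det3]; try ring⟩
  · exact ⟨![0, 0, 0], fun x y => by simp [det3]; try ring⟩

theorem rep_single {n : ℕ} {G H : Pol} (hG : G.IsHomogeneous n) (hH : H.IsHomogeneous n)
    (i j : Fin 3) : Rep n (fun x y => (x i * y j - x j * y i) * (eval x G * eval y H)) := by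
  obtain ⟨c, hc⟩ := exists_c i j
  refine ⟨Unit, inferInstance, fun _ => G, fun _ => H, fun _ => c, fun _ => hG, fun _ => hH, ?_⟩
  intro x y
  simp only [Finset.univ_unique, Finset.sum_singleton]
  rw [hc]; ring

/-- Euler: a homogeneous polynomial of positive degree is `∑ X i * G i` -/
theorem decomp {n : ℕ} {G : Pol} (hG : G.IsHomogeneous (n + 1)) :
    ∃ G' : Fin 3 → Pol, (∀ i, (G' i).IsHomogeneous n) ∧ G = ∑ i, X i * G' i := by
  refine ⟨fun i => C (((n : ℝ) + 1)⁻¹) * pderiv i G, fun i => ?_, ?_⟩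
  · have h1 : (pderiv i G).IsHomogeneous n := by
      have := hG.pderiv (i := i)
      simpa using this
    have h2 := (isHomogeneous_C (Fin 3) (((n : ℝ) + 1)⁻¹)).mul h1
    simpa using h2
  · have h1 := hG.sum_X_mul_pderiv
    have h2 : ∑ i, X i * (C (((n : ℝ) + 1)⁻¹) * pderiv i G) =
        C (((n : ℝ) + 1)⁻¹) * ∑ i, X i * pderiv i G := by
      rw [Finset.mul_sum]
      exact Finset.sum_congr rfl fun i _ => by ring
    rw [h2, h1, nsmul_eq_mul, ← mul_assoc]
    have h3 : (((n + 1 : ℕ)) : Pol) = C ((n : ℝ) + 1) := by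
      rw [← map_natCast (C : ℝ →+* Pol)]
      push_cast
      rfl
    have h4 : ((n : ℝ) + 1) ≠ 0 := by positivity
    rw [h3, ← C_mul, inv_mul_cancel₀ h4, C_1, one_mul]

theorem rep_D : ∀ (n : ℕ) (G H : Pol), G.IsHomogeneous (n + 1) → H.IsHomogeneous (n + 1) →
    Rep n (fun x y => eval x G * eval y H - eval y G * eval x H) := by
  intro n
  induction n with
  | zero =>
    intro G H hG hH
    obtain ⟨G', hG', rfl⟩ := decomp hG
    obtain ⟨H', hH', rfl⟩ := decomp hH
    have h1 : Rep 0 (fun x y => ∑ i, ∑ j, (x i * y j - x j * y i) *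
        (eval x (G' i) * eval y (H' j))) :=
      rep_sum _ _ fun i _ => rep_sum _ _ fun j _ => rep_single (hG' i) (hH' j) i j
    have hc : ∀ {F : Pol}, F.IsHomogeneous 0 → ∀ x y : Fin 3 → ℝ, eval x F = eval y F := by
      intro F hF x y
      have h2 : F.totalDegree = 0 := Nat.le_zero.1 hF.totalDegree_le
      rw [totalDegree_eq_zero_iff_eq_C.1 h2, eval_C, eval_C]
    have e : (fun x y : Fin 3 → ℝ => eval x (∑ i, X i * G' i) * eval y (∑ i, X i * H' i) -
        eval y (∑ i, X i * G' i) * eval x (∑ i, X i * H' i)) = (fun x y => ∑ i, ∑ j,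
          (x i * y j - x j * y i) * (eval x (G' i) * eval y (H' j))) := by
      funext x y
      simp only [map_sum, map_mul, eval_X, Finset.sum_mul_sum, ← Finset.sum_sub_distrib]
      refine Finset.sum_congr rfl fun i _ => Finset.sum_congr rfl fun j _ => ?_
      rw [hc (hG' i) y x, hc (hH' j) x y]
      ring
    rw [e]
    exact h1
  | succ m ih =>
    intro G H hG hH
    obtain ⟨G', hG', rfl⟩ := decomp hG
    obtain ⟨H', hH', rfl⟩ := decomp hH
    have h1 : Rep (m + 1) (fun x y => ∑ i, ∑ j, ((x i * y j - x j * y i) *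
        (eval x (G' i) * eval y (H' j)) + x j * y i *
        (eval x (G' i) * eval y (H' j) - eval y (G' i) * eval x (H' j)))) :=
      rep_sum _ _ fun i _ => rep_sum _ _ fun j _ => rep_add (rep_single (hG' i) (hH' j) i j)
        (rep_mul (ih _ _ (hG' i) (hH' j)) i j)
    have e : (fun x y : Fin 3 → ℝ => eval x (∑ i, X i * G' i) * eval y (∑ i, X i * H' i) -
        eval y (∑ i, X i * G' i) * eval x (∑ i, X i * H' i)) = (fun x y => ∑ i, ∑ j,
          ((x i * y j - x j * y i) * (eval x (G' i) * eval y (H' j)) + x j * y i *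
        (eval x (G' i) * eval y (H' j) - eval y (G' i) * eval x (H' j)))) := by
      funext x y
      simp only [map_sum, map_mul, eval_X, Finset.sum_mul_sum, ← Finset.sum_sub_distrib]
      refine Finset.sum_congr rfl fun i _ => Finset.sum_congr rfl fun j _ => ?_
      ring
    rw [e]
    exact h1

theorem t_W : S_W := by
  intro n G H hG hH
  obtain ⟨ι, _, A, B, c, hA, hB, h⟩ := rep_D n G H hG hH
  refine ⟨Fintype.card ι, fun k => A ((Fintype.equivFin ι).symm k),
    fun k => B ((Fintype.equivFin ι).symm k), fun k => c ((Fintype.equivFin ι).symm k),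
    fun k => hA _, fun k => hB _, fun x y => ?_⟩
  refine (h x y).trans ?_
  exact (Equiv.sum_comp (Fintype.equivFin ι).symm
    (fun k => MvPolynomial.eval x (A k) * MvPolynomial.eval y (B k) * det3 x y (c k))).symm

end Pool.Agent.E8helper51.WW
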